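import Pool.Agent.REV.StmtsG4
import Pool.Agent.BPH.Gwa
import Pool.Agent.BPH.Gwb
import Pool.Agent.BPH.Spi
import Pool.Agent.BPH.Sph
import Pool.Agent.BPH.Zfu
import Pool.Agent.BPH.PpmB

/-!
# Squad REV, row ZST3 (helper3): the step on zonal densities, `n ≥ 3` (copy of ZST of helper36)
-/

set_option autoImplicit false

open MeasureTheory Module Set Filter
open scoped RealInnerProductSpace Pointwise Topology ENNReal

namespace Pool.Agent.REV.H3

open Pool.Agent.REV Pool.Agent.BPH Pool.Agent.Helper55_PB Pool.Agent.Helper28_PB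

theorem TT_abs_min3 (n i : ℕ) (c1 c2 : ℝ) (φ : ℝ → ℝ) {t : ℝ} (ht : |t| ≤ 1) :
    TT n i c1 c2 φ (min |t| 1) = TT n i c1 c2 φ t := by
  rw [min_eq_left ht]
  unfold TT
  rw [sq_abs]

theorem zst3 (hDEQ : DeqStmt) (hZQQ : Zqq3Stmt) (hTTP : Ttp3Stmt) (hCPO : Cpo3Stmt) :
    Zst3Stmt := by
  have hZFU : ZFU := zfu gwa (gwb gwa) sph_facts (spi sph_facts)
  intro E _ _ _ _ _ i hn hi hin
  obtain ⟨c0, hc0, hD⟩ := hDEQ E i hi hin
  set n := finrank ℝ E with hnE
  obtain ⟨-, hC1, hC2, hkap⟩ := hCPO n i hn hi hin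
  have : Nontrivial E := Module.nontrivial_of_finrank_pos (R := ℝ) (by omega)
  refine ⟨c0 * kap n ^ i, by positivity, ?_⟩
  intro e φ he hφ hDens
  have hZ : 0 < ZZ i (zon e φ) := hZFU.pos i (zon e φ) (by omega) hDens
  have hs : 0 ≤ c0 * kap n ^ i / ZZ i (zon e φ) := by positivity
  have hT := hTTP n i (Pool.Agent.REV.C1 n i) (Pool.Agent.REV.C2 n i) φ hn hC1 hC2.le hφ
  have hPrf : Prf (fun t => c0 * kap n ^ i / ZZ i (zon e φ) *
      TT n i (Pool.Agent.REV.C1 n i) (Pool.Agent.REV.C2 n i) φ t) := by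
    obtain ⟨C, hC⟩ := hT.bdd
    exact ⟨hT.meas.const_mul _, fun t => mul_nonneg hs (hT.nonneg t),
      ⟨c0 * kap n ^ i / ZZ i (zon e φ) * C, fun t => mul_le_mul_of_nonneg_left (hC t) hs⟩⟩
  obtain ⟨hDf, hSf⟩ := hD (zon e φ) hDens
  set ψ : ℝ → ℝ := fun t => c0 * kap n ^ i / ZZ i (zon e φ) *
      TT n i (Pool.Agent.REV.C1 n i) (Pool.Agent.REV.C2 n i) φ t with hψ
  have hmeas : Measurable (zon e ψ) := by
    unfold zon
    exact hPrf.meas.comp (by fun_prop)
  -- a.e. equality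
  have hspan : (Submodule.span ℝ {e} : Submodule ℝ E) ≠ ⊤ := by
    intro h
    have h1 : finrank ℝ (Submodule.span ℝ ({e} : Set E)) ≤ 1 := by
      have := finrank_span_le_card (R := ℝ) ({e} : Set E)
      simpa using this
    rw [h, finrank_top] at h1
    omega
  have hae : ∀ᵐ x ∂sph E, c0 * QQ i (zon e φ) x / ZZ i (zon e φ) = zon e ψ x := by
    have h1 : ∀ᵐ x ∂sph E, ‖x‖ = 1 := sph_facts.norm
    have h2 : ∀ᵐ x ∂sph E, x ∉ (Submodule.span ℝ {e} : Submodule ℝ E) := by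
      rw [ae_iff]
      simp only [not_not]
      exact sph_facts.null _ hspan
    filter_upwards [h1, h2] with x hx hx2
    have hpo : po x e ≠ 0 := by
      intro h
      rw [po_formula, hx, sub_eq_zero] at h
      apply hx2
      obtain ⟨a, ha⟩ : ∃ a : ℝ, ⟪x, e⟫ / (1 : ℝ) ^ 2 = a := ⟨_, rfl⟩
      rw [ha] at h
      have hne : a ≠ 0 := by
        intro h0
        rw [h0, zero_smul] at h
        rw [h, norm_zero] at he
        exact zero_ne_one he
      rw [Submodule.mem_span_singleton]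
      refine ⟨a⁻¹, ?_⟩
      rw [h, smul_smul, inv_mul_cancel₀ hne, one_smul]
    have hq := hZQQ e x φ i hn hi he hx hpo hφ
    have habs : |⟪e, x⟫| ≤ 1 := by
      have := abs_real_inner_le_norm e x
      rwa [he, hx, mul_one] at this
    rw [hq]
    show c0 * (kap n ^ i * TT n i (Pool.Agent.REV.C1 n i) (Pool.Agent.REV.C2 n i) φ ⟪e, x⟫) /
      ZZ i (zon e φ) = c0 * kap n ^ i / ZZ i (zon e φ) *
        TT n i (Pool.Agent.REV.C1 n i) (Pool.Agent.REV.C2 n i) φ (min |⟪e, x⟫| 1)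
    rw [TT_abs_min3 n i _ _ φ habs]
    ring
  refine ⟨hZ, hPrf, ⟨hmeas, fun x => hPrf.nonneg _, ?_, ?_⟩, ?_⟩
  · obtain ⟨C, hC⟩ := hPrf.bdd
    exact ⟨C, fun x => hC _⟩
  · rw [← hDf.int]
    exact integral_congr_ae (hae.mono fun x hx => hx.symm)
  · intro g hg
    rw [← hSf g hg]
    congr 1
    exact integral_congr_ae (hae.mono fun x hx => by
      show g x * zon e ψ x = g x * (c0 * QQ i (zon e φ) x / ZZ i (zon e φ))
      rw [hx])

end Pool.Agent.REV.H3
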