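import Pool.Agent.REV.StmtsA2

/-!
# Squad REV (MP_bbfd73_gt), row MBD: bounds of RA, RB by the mass
-/

set_option autoImplicit false

namespace Pool.Agent.REV.H3

open Set MeasureTheory
open Pool.Agent.REV

theorem mbd (INT : IntStmt) (_CRC : CrcStmt) : MbdStmt := by
  intro n f κ c hn hf hκ hc hc1
  have hn' : (4 : ℝ) ≤ n := by exact_mod_cast hn
  obtain ⟨h1, h2⟩ := INT n f hn hf
  obtain ⟨hA, hB, _, _⟩ := h2 c hc.le hc1
  obtain ⟨w, hw⟩ : ∃ w : ℝ → ℝ, ∀ x, w x = (1 - x ^ 2) ^ (((n : ℝ) - 3) / 2) * f x :=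
    ⟨_, fun _ => rfl⟩
  have hwf : (fun x : ℝ => (1 - x ^ 2) ^ (((n : ℝ) - 3) / 2) * f x) = w := by
    funext x
    exact (hw x).symm
  rw [hwf] at h1
  have hκ' : ∫ x in (0 : ℝ)..1, w x ≤ κ := by
    rw [← hwf]
    exact hκ
  have hw0 : ∀ x ∈ Icc (0 : ℝ) 1, 0 ≤ w x := by
    intro x hx
    rw [hw]
    apply mul_nonneg
    · apply Real.rpow_nonneg
      nlinarith [hx.1, hx.2]
    · exact hf.nonneg x hx
  have hwc : IntervalIntegrable w volume 0 c := by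
    apply h1.mono_set
    rw [uIcc_of_le hc.le, uIcc_of_le zero_le_one]
    exact Icc_subset_Icc le_rfl hc1
  have hJ : IntervalIntegrable (fun r : ℝ => w (r * c)) volume 0 1 := by
    have h := hwc.comp_mul_right (c := c)
    rw [zero_div, div_self hc.ne'] at h
    exact h
  obtain ⟨J, hJd⟩ : ∃ J : ℝ, J = ∫ r in (0 : ℝ)..1, w (r * c) := ⟨_, rfl⟩
  have hJc : c * J = ∫ x in (0 : ℝ)..c, w x := by
    rw [hJd, intervalIntegral.mul_integral_comp_mul_right, zero_mul, one_mul]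
  have hJκ : c * J ≤ κ := by
    rw [hJc]
    refine le_trans ?_ hκ'
    apply intervalIntegral.integral_mono_interval le_rfl hc.le hc1 ?_ h1
    filter_upwards [ae_restrict_mem measurableSet_Ioc] with x hx
    exact hw0 x ⟨hx.1.le, hx.2⟩
  have hJ' : J ≤ κ / c := by
    rw [le_div_iff₀ hc]
    linarith
  -- the pointwise facts
  have base : ∀ r ∈ Icc (0 : ℝ) 1, 0 ≤ 1 - r ^ 2 ∧ 1 - r ^ 2 ≤ 1 - (r * c) ^ 2 ∧
      1 - (r * c) ^ 2 ≤ 1 ∧ 1 - c ^ 2 ≤ 1 - (r * c) ^ 2 ∧ r * c ∈ Icc (0 : ℝ) 1 := by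
    intro r hr
    have a1 : r ^ 2 ≤ 1 := by nlinarith [hr.1, hr.2]
    have a2 : (r * c) ^ 2 ≤ r ^ 2 := by
      rw [mul_pow]
      have : c ^ 2 ≤ 1 := by nlinarith
      nlinarith [sq_nonneg r]
    have a3 : (r * c) ^ 2 ≤ c ^ 2 := by
      rw [mul_pow]
      nlinarith [sq_nonneg c]
    have a4 : 0 ≤ r * c := mul_nonneg hr.1 hc.le
    refine ⟨by linarith, by linarith, by nlinarith [sq_nonneg (r * c)], by linarith, a4, ?_⟩
    nlinarith [hr.2]
  constructor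
  · refine le_trans ?_ hJ'
    rw [hJd]
    unfold RA
    refine intervalIntegral.integral_mono_on zero_le_one hA hJ ?_
    intro r hr
    obtain ⟨b1, b2, b3, b4, b5⟩ := base r hr
    rw [hw]
    apply mul_le_mul_of_nonneg_right _ (hf.nonneg _ b5)
    have c1 : (1 - r ^ 2) ^ (((n : ℝ) - 2) / 2) ≤ (1 - (r * c) ^ 2) ^ (((n : ℝ) - 2) / 2) :=
      Real.rpow_le_rpow b1 b2 (by linarith)
    refine c1.trans ?_
    rcases (b1.trans b2).eq_or_lt with h0 | h0
    · rw [← h0, Real.zero_rpow (by linarith)]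
      exact Real.rpow_nonneg le_rfl _
    · exact Real.rpow_le_rpow_of_exponent_ge h0 b3 (by linarith)
  · intro hlt
    have hs : 0 < 1 - c ^ 2 := by nlinarith
    have hs2 : 0 < Real.sqrt (1 - c ^ 2) := Real.sqrt_pos.2 hs
    have hle : RB n f c ≤ (Real.sqrt (1 - c ^ 2))⁻¹ * J := by
      rw [hJd, ← intervalIntegral.integral_const_mul]
      unfold RB
      refine intervalIntegral.integral_mono_on zero_le_one hB (hJ.const_mul _) ?_
      intro r hr
      obtain ⟨b1, b2, b3, b4, b5⟩ := base r hr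
      have b6 : 0 < 1 - (r * c) ^ 2 := lt_of_lt_of_le hs b4
      rw [hw, ← mul_assoc]
      apply mul_le_mul_of_nonneg_right _ (hf.nonneg _ b5)
      have c1 : (1 - r ^ 2) ^ (((n : ℝ) - 4) / 2) ≤ (1 - (r * c) ^ 2) ^ (((n : ℝ) - 4) / 2) :=
        Real.rpow_le_rpow b1 b2 (by linarith)
      have c2 : r ^ 2 * (1 - r ^ 2) ^ (((n : ℝ) - 4) / 2) ≤ (1 - (r * c) ^ 2) ^ (((n : ℝ) - 4) / 2) := by
        have d1 : r ^ 2 ≤ 1 := by nlinarith [hr.1, hr.2]
        have d2 : 0 ≤ (1 - r ^ 2) ^ (((n : ℝ) - 4) / 2) := Real.rpow_nonneg b1 _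
        nlinarith
      refine c2.trans ?_
      have c3 : (1 - (r * c) ^ 2) ^ (((n : ℝ) - 4) / 2) =
          (Real.sqrt (1 - (r * c) ^ 2))⁻¹ * (1 - (r * c) ^ 2) ^ (((n : ℝ) - 3) / 2) := by
        rw [Real.sqrt_eq_rpow, ← Real.rpow_neg b6.le, ← Real.rpow_add b6]
        congr 1
        ring
      rw [c3]
      apply mul_le_mul_of_nonneg_right _ (Real.rpow_nonneg b6.le _)
      rw [inv_le_inv₀ (Real.sqrt_pos.2 b6) hs2]
      exact Real.sqrt_le_sqrt b4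
    refine hle.trans ?_
    rw [le_div_iff₀ (mul_pos hc hs2)]
    have e : (Real.sqrt (1 - c ^ 2))⁻¹ * J * (c * Real.sqrt (1 - c ^ 2)) = c * J := by
      field_simp
    rw [e]
    exact hJκ

end Pool.Agent.REV.H3
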