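import Pool.Agent.REV.StmtsA2

/-!
# Squad REV (MP_bbfd73_gt), row SGA: steps 1 and 2
-/

set_option autoImplicit false

namespace Pool.Agent.REV.H3

open Set MeasureTheory
open Pool.Agent.REV

theorem sga (INT : IntStmt) (MBD : MbdStmt) (RBL : RblStmt) : SgaStmt := by
  intro n i C1 C2 κ η S s M f hn hi hin hC1 hC2 hκ hs hsS hM hf
  have hS : 0 ≤ S := hs.trans hsS
  obtain ⟨j, rfl⟩ : ∃ j, i = j + 1 := ⟨i - 1, by omega⟩
  have hj : j + 1 - 1 = j := by omega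
  -- the common facts
  have facts : ∀ t : ℝ, 0 < t → t < 1 → ∃ c : ℝ, c = Real.sqrt (1 - t ^ 2) ∧ 0 < c ∧ c < 1 ∧
      1 - c ^ 2 = t ^ 2 ∧ (1 - t ^ 2) ^ (-(((j + 1 : ℕ) : ℝ) / 2)) = (c ^ (j + 1))⁻¹ ∧
      0 ≤ RA n f c ∧ 0 ≤ RB n f c ∧ RA n f c ≤ κ / c ∧ RB n f c ≤ κ / (c * t) := by
    intro t ht ht1
    have h1 : 0 < 1 - t ^ 2 := by nlinarith
    obtain ⟨c, hc⟩ : ∃ c : ℝ, c = Real.sqrt (1 - t ^ 2) := ⟨_, rfl⟩
    have hc0 : 0 < c := by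
      rw [hc]
      exact Real.sqrt_pos.2 h1
    have hc2 : c ^ 2 = 1 - t ^ 2 := by
      rw [hc]
      exact Real.sq_sqrt h1.le
    have hc1 : c < 1 := by
      by_contra hcon
      have : (1 : ℝ) ≤ c := not_lt.1 hcon
      nlinarith [sq_nonneg t, mul_pos ht ht]
    have h3 : 1 - c ^ 2 = t ^ 2 := by linarith
    obtain ⟨_, _, hA, hB⟩ := (INT n f hn hf.adm).2 c hc0.le hc1.le
    obtain ⟨m1, m2⟩ := MBD n f κ c hn hf.adm hf.mass hc0 hc1.le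
    have m3 := m2 hc1
    rw [h3, Real.sqrt_sq ht.le] at m3
    refine ⟨c, hc, hc0, hc1, h3, ?_, hA, hB, m1, m3⟩
    rw [Real.rpow_neg h1.le]
    congr 1
    rw [hc, Real.sqrt_eq_rpow, ← Real.rpow_natCast ((1 - t ^ 2) ^ (1 / 2 : ℝ)) (j + 1),
      ← Real.rpow_mul h1.le]
    congr 1
    ring
  refine ⟨?_, ?_⟩
  · intro t ht ht1
    obtain ⟨c, hc, hc0, hc1, hct, hD, hA, hB, m1, m2⟩ := facts t ht ht1
    show s * TT n (j + 1) C1 C2 f t ≤ S * ((C1 + C2) * κ ^ (j + 1)) * t ^ (-(1 : ℝ)) *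
      (1 - t ^ 2) ^ (-(((j + 1 : ℕ) : ℝ) / 2))
    rw [hD, Real.rpow_neg_one]
    have hT : TT n (j + 1) C1 C2 f t ≤ (C1 + C2) * κ ^ (j + 1) * t⁻¹ * (c ^ (j + 1))⁻¹ := by
      unfold TT
      rw [← hc, hj]
      have a1 : RA n f c ^ (j + 1) ≤ (κ / c) ^ (j + 1) := pow_le_pow_left₀ hA m1 _
      have a2 : RA n f c ^ j ≤ (κ / c) ^ j := pow_le_pow_left₀ hA m1 _
      have a3 : RB n f c * RA n f c ^ j ≤ κ / (c * t) * (κ / c) ^ j :=
        mul_le_mul m2 a2 (pow_nonneg hA _) (by positivity)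
      have a4 : κ / (c * t) * (κ / c) ^ j = κ ^ (j + 1) * t⁻¹ * (c ^ (j + 1))⁻¹ := by
        rw [div_pow, pow_succ, pow_succ]
        field_simp
      have a5 : (κ / c) ^ (j + 1) = κ ^ (j + 1) * (c ^ (j + 1))⁻¹ := by
        rw [div_pow, div_eq_mul_inv]
      have a6 : κ ^ (j + 1) * (c ^ (j + 1))⁻¹ ≤ κ ^ (j + 1) * t⁻¹ * (c ^ (j + 1))⁻¹ := by
        have b1 : (1 : ℝ) ≤ t⁻¹ := (one_le_inv₀ ht).2 ht1.le
        have b2 : 0 ≤ κ ^ (j + 1) * (c ^ (j + 1))⁻¹ := by positivity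
        calc κ ^ (j + 1) * (c ^ (j + 1))⁻¹ = κ ^ (j + 1) * (c ^ (j + 1))⁻¹ * 1 := by ring
          _ ≤ κ ^ (j + 1) * (c ^ (j + 1))⁻¹ * t⁻¹ := mul_le_mul_of_nonneg_left b1 b2
          _ = κ ^ (j + 1) * t⁻¹ * (c ^ (j + 1))⁻¹ := by ring
      calc C1 * RA n f c ^ (j + 1) + C2 * (RB n f c * RA n f c ^ j) ≤
          C1 * (κ ^ (j + 1) * t⁻¹ * (c ^ (j + 1))⁻¹) +
            C2 * (κ ^ (j + 1) * t⁻¹ * (c ^ (j + 1))⁻¹) := by
            apply add_le_add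
            · exact mul_le_mul_of_nonneg_left (a1.trans (a5.le.trans a6)) hC1
            · exact mul_le_mul_of_nonneg_left (a3.trans a4.le) hC2
        _ = _ := by ring
    have hpos : 0 ≤ (C1 + C2) * κ ^ (j + 1) * t⁻¹ * (c ^ (j + 1))⁻¹ := by positivity
    calc s * TT n (j + 1) C1 C2 f t ≤ s * ((C1 + C2) * κ ^ (j + 1) * t⁻¹ * (c ^ (j + 1))⁻¹) :=
          mul_le_mul_of_nonneg_left hT hs
      _ ≤ S * ((C1 + C2) * κ ^ (j + 1) * t⁻¹ * (c ^ (j + 1))⁻¹) :=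
          mul_le_mul_of_nonneg_right hsS hpos
      _ = _ := by ring
  · intro hst t ht ht1
    obtain ⟨c, hc, hc0, hc1, hct, hD, hA, hB, m1, m2⟩ := facts t ht ht1
    have hn2 : (((j + 1 : ℕ) : ℝ) / 2) ≤ ((n : ℝ) - 2) / 2 := by
      have : ((j + 1 : ℕ) : ℝ) + 2 ≤ n := by exact_mod_cast hin
      linarith
    have m4 := RBL n 1 (((j + 1 : ℕ) : ℝ) / 2) M c f hn zero_le_one le_rfl (by positivity) hn2 hM
      hf.adm hst hc0 hc1
    have e1 : (1 - c ^ 2) ^ (-(1 / 8) : ℝ) = t ^ (-(1 / 4) : ℝ) := by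
      rw [hct, ← Real.rpow_natCast t 2, ← Real.rpow_mul ht.le]
      congr 1
      norm_num
    rw [e1, Real.rpow_neg_one] at m4
    obtain ⟨q, hq⟩ : ∃ q : ℝ, q = t ^ (-(1 / 4) : ℝ) := ⟨_, rfl⟩
    have hq1 : 1 ≤ q := by
      rw [hq, Real.rpow_neg ht.le]
      apply (one_le_inv₀ (Real.rpow_pos_of_pos ht _)).2
      exact Real.rpow_le_one ht.le ht1.le (by norm_num)
    rw [← hq] at m4
    show s * TT n (j + 1) C1 C2 f t ≤ S * (C1 * κ ^ (j + 1) + 4 * C2 * M * κ ^ (j + 1 - 1)) *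
      t ^ (-(1 / 4) : ℝ) * (1 - t ^ 2) ^ (-(((j + 1 : ℕ) : ℝ) / 2))
    rw [hD, ← hq, hj]
    have hT : TT n (j + 1) C1 C2 f t ≤
        (C1 * κ ^ (j + 1) + 4 * C2 * M * κ ^ j) * q * (c ^ (j + 1))⁻¹ := by
      unfold TT
      rw [← hc, hj]
      have a1 : RA n f c ^ (j + 1) ≤ (κ / c) ^ (j + 1) := pow_le_pow_left₀ hA m1 _
      have a2 : RA n f c ^ j ≤ (κ / c) ^ j := pow_le_pow_left₀ hA m1 _
      have hq0 : 0 ≤ q := by linarith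
      have a3 : RB n f c * RA n f c ^ j ≤ 4 * M * c⁻¹ * q * (κ / c) ^ j :=
        mul_le_mul m4 a2 (pow_nonneg hA _) (by positivity)
      have a4 : 4 * M * c⁻¹ * q * (κ / c) ^ j = 4 * M * κ ^ j * q * (c ^ (j + 1))⁻¹ := by
        rw [div_pow, pow_succ]
        field_simp
      have a5 : (κ / c) ^ (j + 1) = κ ^ (j + 1) * (c ^ (j + 1))⁻¹ := by
        rw [div_pow, div_eq_mul_inv]
      have a6 : κ ^ (j + 1) * (c ^ (j + 1))⁻¹ ≤ κ ^ (j + 1) * q * (c ^ (j + 1))⁻¹ := by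
        have b2 : 0 ≤ κ ^ (j + 1) * (c ^ (j + 1))⁻¹ := by positivity
        calc κ ^ (j + 1) * (c ^ (j + 1))⁻¹ = κ ^ (j + 1) * (c ^ (j + 1))⁻¹ * 1 := by ring
          _ ≤ κ ^ (j + 1) * (c ^ (j + 1))⁻¹ * q := mul_le_mul_of_nonneg_left hq1 b2
          _ = κ ^ (j + 1) * q * (c ^ (j + 1))⁻¹ := by ring
      calc C1 * RA n f c ^ (j + 1) + C2 * (RB n f c * RA n f c ^ j) ≤
          C1 * (κ ^ (j + 1) * q * (c ^ (j + 1))⁻¹) +
            C2 * (4 * M * κ ^ j * q * (c ^ (j + 1))⁻¹) := by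
            apply add_le_add
            · exact mul_le_mul_of_nonneg_left (a1.trans (a5.le.trans a6)) hC1
            · exact mul_le_mul_of_nonneg_left (a3.trans a4.le) hC2
        _ = _ := by ring
    have hpos : 0 ≤ (C1 * κ ^ (j + 1) + 4 * C2 * M * κ ^ j) * q * (c ^ (j + 1))⁻¹ := by
      have : 0 ≤ q := by linarith
      positivity
    calc s * TT n (j + 1) C1 C2 f t ≤
          s * ((C1 * κ ^ (j + 1) + 4 * C2 * M * κ ^ j) * q * (c ^ (j + 1))⁻¹) :=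
          mul_le_mul_of_nonneg_left hT hs
      _ ≤ S * ((C1 * κ ^ (j + 1) + 4 * C2 * M * κ ^ j) * q * (c ^ (j + 1))⁻¹) :=
          mul_le_mul_of_nonneg_right hsS hpos
      _ = _ := by ring

end Pool.Agent.REV.H3
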